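import Pool.Agent.Helper10.Qc.Stmts

set_option autoImplicit false

/-!
# Module H1: first inequality for reduced points
-/

namespace Pool.Agent.Helper10.Qc

open Pool.Agent.Helper19.Qh Pool.Agent.Helper19.Qc

theorem h1_coord (x : ℝ) : ∃ n b : ℤ, (x - (b - 1 / 2)) ^ 2 + (x - n) ^ 2 ≤ 1 / 4 := by
  have h1 := abs_sub_round x
  rw [abs_le] at h1
  by_cases h : 0 ≤ x - round x
  · refine ⟨round x, round x + 1, ?_⟩
    push_cast
    nlinarith [h1.2]
  · push Not at h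
    refine ⟨round x, round x, ?_⟩
    nlinarith [h1.1]

theorem h1_sign (t : ℝ) : ∃ ε : ℤ, (ε = 1 ∨ ε = -1) ∧ |t| = t * ε := by
  by_cases h : 0 ≤ t
  · exact ⟨1, Or.inl rfl, by rw [abs_of_nonneg h]; simp⟩
  · push Not at h
    exact ⟨-1, Or.inr rfl, by rw [abs_of_neg h]; simp⟩

theorem h1_half (ε0 ε1 : ℤ) (h0 : ε0 = 1 ∨ ε0 = -1) (h1 : ε1 = 1 ∨ ε1 = -1) :
    ∃ b : ℤ, (ε0 : ℝ) / 2 + b = (ε1 : ℝ) / 2 := by
  rcases h0 with rfl | rfl <;> rcases h1 with rfl | rfl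
  · exact ⟨0, by norm_num⟩
  · exact ⟨-1, by norm_num⟩
  · exact ⟨1, by norm_num⟩
  · exact ⟨0, by norm_num⟩

theorem h1_one (q : Q) (h : q.re ^ 2 + q.imI ^ 2 + q.imJ ^ 2 + q.imK ^ 2 = 1) : ‖q‖ = 1 := by
  have h1 := q_norm_sq q
  rw [h] at h1
  exact (pow_eq_one_iff_of_nonneg (norm_nonneg q) two_ne_zero).1 h1

theorem h1_sq (ε : ℤ) (h : ε = 1 ∨ ε = -1) : (ε : ℝ) ^ 2 = 1 := by
  rcases h with rfl | rfl <;> norm_num

theorem h1_unit (v : Q) (c : ℝ) (hc : 2 * c ^ 2 = ‖v‖ ^ 2) : ∃ β : Q, β ∈ HO ∧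
    ‖β‖ = 1 ∧ c ≤ v.re * β.re + v.imI * β.imI + v.imJ * β.imJ + v.imK * β.imK := by
  rw [q_norm_sq] at hc
  obtain ⟨e0, h0, g0⟩ := h1_sign v.re
  obtain ⟨e1, h1, g1⟩ := h1_sign v.imI
  obtain ⟨e2, h2, g2⟩ := h1_sign v.imJ
  obtain ⟨e3, h3, g3⟩ := h1_sign v.imK
  by_cases c0 : c ≤ |v.re|
  · refine ⟨hq (2 * e0) (-e0) (-e0) (-e0), hq_mem _ _ _ _, h1_one _ ?_, ?_⟩
    · simp only [hq_re, hq_i, hq_j, hq_k]
      push_cast
      have := h1_sq e0 h0
      nlinarith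
    · simp only [hq_re, hq_i, hq_j, hq_k]
      push_cast
      rw [g0] at c0
      refine c0.trans (le_of_eq ?_)
      ring
  by_cases c1 : c ≤ |v.imI|
  · refine ⟨hq 0 e1 0 0, hq_mem _ _ _ _, h1_one _ ?_, ?_⟩
    · simp only [hq_re, hq_i, hq_j, hq_k]
      push_cast
      have := h1_sq e1 h1
      nlinarith
    · simp only [hq_re, hq_i, hq_j, hq_k]
      push_cast
      rw [g1] at c1
      refine c1.trans (le_of_eq ?_)
      ring
  by_cases c2 : c ≤ |v.imJ|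
  · refine ⟨hq 0 0 e2 0, hq_mem _ _ _ _, h1_one _ ?_, ?_⟩
    · simp only [hq_re, hq_i, hq_j, hq_k]
      push_cast
      have := h1_sq e2 h2
      nlinarith
    · simp only [hq_re, hq_i, hq_j, hq_k]
      push_cast
      rw [g2] at c2
      refine c2.trans (le_of_eq ?_)
      ring
  by_cases c3 : c ≤ |v.imK|
  · refine ⟨hq 0 0 0 e3, hq_mem _ _ _ _, h1_one _ ?_, ?_⟩
    · simp only [hq_re, hq_i, hq_j, hq_k]
      push_cast
      have := h1_sq e3 h3
      nlinarith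
    · simp only [hq_re, hq_i, hq_j, hq_k]
      push_cast
      rw [g3] at c3
      refine c3.trans (le_of_eq ?_)
      ring
  push Not at c0 c1 c2 c3
  obtain ⟨b1, k1⟩ := h1_half e0 e1 h0 h1
  obtain ⟨b2, k2⟩ := h1_half e0 e2 h0 h2
  obtain ⟨b3, k3⟩ := h1_half e0 e3 h0 h3
  refine ⟨hq e0 b1 b2 b3, hq_mem _ _ _ _, h1_one _ ?_, ?_⟩
  · simp only [hq_re, hq_i, hq_j, hq_k]
    rw [k1, k2, k3, div_pow, div_pow, div_pow, div_pow, h1_sq e0 h0, h1_sq e1 h1, h1_sq e2 h2,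
      h1_sq e3 h3]
    norm_num
  · simp only [hq_re, hq_i, hq_j, hq_k]
    rw [k1, k2, k3]
    have hcpos : 0 < c := lt_of_le_of_lt (abs_nonneg _) c0
    have s0 : v.re ^ 2 ≤ c * |v.re| := by
      rw [← sq_abs, pow_two]
      exact mul_le_mul_of_nonneg_right c0.le (abs_nonneg _)
    have s1 : v.imI ^ 2 ≤ c * |v.imI| := by
      rw [← sq_abs, pow_two]
      exact mul_le_mul_of_nonneg_right c1.le (abs_nonneg _)
    have s2 : v.imJ ^ 2 ≤ c * |v.imJ| := by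
      rw [← sq_abs, pow_two]
      exact mul_le_mul_of_nonneg_right c2.le (abs_nonneg _)
    have s3 : v.imK ^ 2 ≤ c * |v.imK| := by
      rw [← sq_abs, pow_two]
      exact mul_le_mul_of_nonneg_right c3.le (abs_nonneg _)
    have hS : c * (2 * c) ≤ c * (|v.re| + |v.imI| + |v.imJ| + |v.imK|) := by
      calc c * (2 * c) = 2 * c ^ 2 := by ring
        _ = v.re ^ 2 + v.imI ^ 2 + v.imJ ^ 2 + v.imK ^ 2 := hc
        _ ≤ c * |v.re| + c * |v.imI| + c * |v.imJ| + c * |v.imK| := by linarith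
        _ = _ := by ring
    have hS' := le_of_mul_le_mul_left hS hcpos
    rw [g0, g1, g2, g3] at hS'
    linarith

theorem h1_sub (a b : Q) : ‖a - b‖ ^ 2 = ‖a‖ ^ 2 + ‖b‖ ^ 2 -
    2 * (a.re * b.re + a.imI * b.imI + a.imJ * b.imJ + a.imK * b.imK) := by
  rw [q_norm_sq, q_norm_sq, q_norm_sq]
  simp only [Quaternion.re_sub, Quaternion.imI_sub, Quaternion.imJ_sub, Quaternion.imK_sub]
  ring

theorem h1_num (T c q X : ℝ) (hc : 0 ≤ c) (hcT : 2 * c ^ 2 = q * T) (hq0 : 0 ≤ q)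
    (hq : q ≤ 1 / 2) (h1 : 1 ≤ T - 2 * c + q) (hX : 2 * T ≤ X) :
    2 ≤ X ∧ 4 * (q * (2 - q)) ≤ (X - 2) ^ 2 := by
  have h2 : 2 * q * T ≤ (T + q - 1) ^ 2 := by nlinarith
  have hT : 1 ≤ T := by
    by_contra hT
    push Not at hT
    rcases hq0.eq_or_lt with h0 | h0
    · rw [← h0] at h1
      linarith
    · have h3 : 0 ≤ T + q - 1 := by linarith
      have h4 : (T + q - 1) ^ 2 ≤ q * (T + q - 1) := by
        rw [pow_two]
        exact mul_le_mul_of_nonneg_right (by linarith) h3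
      have h5 : q * (2 * T) ≤ q * (T + q - 1) := by linarith
      have h6 := le_of_mul_le_mul_left h5 h0
      linarith
  refine ⟨by linarith, ?_⟩
  have h3 : q * (2 - q) ≤ (T - 1) ^ 2 := by linarith
  have h4 : (2 * (T - 1)) ^ 2 ≤ (X - 2) ^ 2 :=
    pow_le_pow_left₀ (by linarith) (by linarith) 2
  linarith

theorem st_H1 (_h1 : ST_UNI) (h2 : ST_OT) (_h3 : ST_HZ) : ST_H1 := by
  intro p hp hqle
  have hpos : 0 < hgt p := hp.1
  have hn : ‖p.2‖ ^ 2 = ‖p.2 0‖ ^ 2 := by rw [norm_E1]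
  -- the norm of the product with a cusp vector
  have hw : ∀ (a : Q) (b : Q), a ∈ HO → b ∈ HO → 2 * a.re + ‖b‖ ^ 2 = 0 →
      1 ≤ ‖p.1 + p.2 0 * star b + star a‖ ^ 2 := by
    intro a b ha hb hab
    have hNO : NO a (e1 b) := ⟨ha, hb, by rw [e1_norm]; exact hab⟩
    have h3 := hp.2 _ (h2 a (e1 b) hNO)
    unfold uval at h3
    have h4 : herm (vec p) ((a, e1 b, 1) : V 1) = p.1 + p.2 0 * star b + star a := by
      unfold herm vec
      simp only [star_one, mul_one, one_mul]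
      rw [hin1]
      rfl
    rw [h4, div_le_div_iff_of_pos_right hpos] at h3
    exact h3
  set ζ : Q := p.2 0 with hζ
  set X : ℝ := hgt p + ‖ζ‖ ^ 2 with hX
  have hre : p.1.re = -X / 2 := by
    have h3 : hgt p = -(2 * p.1.re + ‖p.2‖ ^ 2) := rfl
    rw [hn] at h3
    rw [hX]
    linarith
  have hX0 : 0 < X := by
    rw [hX]
    positivity
  obtain ⟨n1, b1, k1⟩ := h1_coord p.1.imI
  obtain ⟨n2, b2, k2⟩ := h1_coord p.1.imJ
  obtain ⟨n3, b3, k3⟩ := h1_coord p.1.imK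
  -- step A
  have hA : 1 ≤ X ^ 2 / 4 + ((p.1.imI - n1) ^ 2 + (p.1.imJ - n2) ^ 2 + (p.1.imK - n3) ^ 2) := by
    have h3 := hw (hq 0 n1 n2 n3) 0 (hq_mem _ _ _ _) HO.zero_mem (by
      rw [hq_re]
      simp)
    rw [q_norm_sq] at h3
    simp only [star_zero, mul_zero, add_zero, Quaternion.re_add, Quaternion.imI_add,
      Quaternion.imJ_add, Quaternion.imK_add, Quaternion.re_star, Quaternion.imI_star,
      Quaternion.imJ_star, Quaternion.imK_star, hq_re, hq_i, hq_j, hq_k, hre] at h3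
    push_cast at h3
    linarith
  -- step B
  set a : Q := hq (-1) b1 b2 b3 with ha
  set y : Q := -(p.1 + star a) with hy
  have hT : 2 * ‖y‖ ^ 2 ≤ X ^ 2 + X := by
    rw [q_norm_sq]
    simp only [hy, ha, Quaternion.re_neg, Quaternion.imI_neg, Quaternion.imJ_neg,
      Quaternion.imK_neg, Quaternion.re_add, Quaternion.imI_add,
      Quaternion.imJ_add, Quaternion.imK_add, Quaternion.re_star, Quaternion.imI_star,
      Quaternion.imJ_star, Quaternion.imK_star, hq_re, hq_i, hq_j, hq_k, hre]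
    push_cast
    linarith
  -- step C
  set c : ℝ := Real.sqrt (‖ζ‖ ^ 2 * ‖y‖ ^ 2 / 2) with hc
  have hc0 : 0 ≤ c := Real.sqrt_nonneg _
  have hc2 : 2 * c ^ 2 = ‖ζ‖ ^ 2 * ‖y‖ ^ 2 := by
    rw [hc, Real.sq_sqrt (by positivity)]
    ring
  obtain ⟨β, hβ, hβ1, hβc⟩ := h1_unit (star y * ζ) c (by
    rw [norm_mul, norm_star, mul_pow, hc2]
    ring)
  have hC : 1 ≤ ‖y‖ ^ 2 - 2 * c + ‖ζ‖ ^ 2 := by
    have h3 := hw a β (hq_mem _ _ _ _) hβ (by
      rw [hβ1, ha, hq_re]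
      push_cast
      ring)
    have h4 : p.1 + ζ * star β + star a = ζ * star β - y := by
      rw [hy]
      abel
    rw [h4, h1_sub, norm_mul, norm_star, hβ1, mul_one] at h3
    have h5 : (star y * ζ).re * β.re + (star y * ζ).imI * β.imI + (star y * ζ).imJ * β.imJ +
        (star y * ζ).imK * β.imK = (ζ * star β).re * y.re + (ζ * star β).imI * y.imI +
        (ζ * star β).imJ * y.imJ + (ζ * star β).imK * y.imK := by
      simp only [Quaternion.re_mul, Quaternion.imI_mul, Quaternion.imJ_mul, Quaternion.imK_mul,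
        Quaternion.re_star, Quaternion.imI_star, Quaternion.imJ_star, Quaternion.imK_star]
      ring
    rw [h5] at hβc
    linarith
  exact h1_num (‖y‖ ^ 2) c (‖ζ‖ ^ 2) (X ^ 2 + X) hc0 hc2 (by positivity) hqle hC hT

end Pool.Agent.Helper10.Qc
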